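import Mathlib

/-! Sums over `ZMod p` of powers of binomial coefficients times second order harmonic numbers. -/

set_option autoImplicit false

namespace Pool.Agent.Helper484_BinPow

open Finset Polynomial

/-- `∑ (-1)^n C(N,n) C(n,T)^m = 0` if `m T < N`. -/
theorem alt_sum (N T m : ℕ) (h : m * T < N) :
    ∑ n ∈ range (N + 1), (-1 : ℤ) ^ n * (N.choose n : ℤ) * (n.choose T : ℤ) ^ m = 0 := by
  have hd : ((descPochhammer ℚ T) ^ m).natDegree < N := by
    refine lt_of_le_of_lt natDegree_pow_le ?_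
    rw [descPochhammer_natDegree]
    exact h
  have h1 := congrFun (Polynomial.fwdDiff_iter_eq_zero_of_degree_lt hd) 0
  rw [fwdDiff_iter_eq_sum_shift] at h1
  simp only [Pi.zero_apply, zero_add, nsmul_eq_mul, mul_one, eval_pow,
    descPochhammer_eval_eq_descFactorial] at h1
  have h2 : ∑ n ∈ range (N + 1), (-1 : ℚ) ^ n * (N.choose n : ℚ) * (n.choose T : ℚ) ^ m = 0 := by
    have h3 : ∑ n ∈ range (N + 1), ((-1 : ℤ) ^ (N - n) * (N.choose n : ℤ)) •
        ((n.descFactorial T : ℚ) ^ m)
        = ((-1 : ℚ) ^ N * (T.factorial : ℚ) ^ m) *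
          ∑ n ∈ range (N + 1), (-1 : ℚ) ^ n * (N.choose n : ℚ) * (n.choose T : ℚ) ^ m := by
      rw [mul_sum]
      apply sum_congr rfl
      intro n hn
      simp only [mem_range] at hn
      rw [Nat.descFactorial_eq_factorial_mul_choose]
      have e : (-1 : ℚ) ^ (N - n) = (-1) ^ N * (-1) ^ n := by
        have : (-1 : ℚ) ^ N = (-1) ^ (N - n) * (-1) ^ n := by
          rw [← pow_add]
          congr 1
          omega
        rw [this, mul_assoc, ← mul_pow]
        norm_num
      rw [zsmul_eq_mul]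
      push_cast
      rw [e, mul_pow]
      ring
    rw [h3] at h1
    have h4 : ((-1 : ℚ) ^ N * (T.factorial : ℚ) ^ m) ≠ 0 := by positivity
    exact (mul_eq_zero.1 h1).resolve_left h4
  exact_mod_cast h2

variable {p : ℕ}

theorem sum_range_zmod [Fact p.Prime] (g : ZMod p → ZMod p) :
    ∑ n ∈ range p, g (n : ZMod p) = ∑ x : ZMod p, g x := by
  symm
  refine Finset.sum_bij' (fun (x : ZMod p) _ => x.val) (fun j _ => (j : ZMod p)) ?_ ?_ ?_ ?_ ?_
  · intro x _
    rw [mem_range]
    exact ZMod.val_lt _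
  · intro j _
    exact Finset.mem_univ _
  · intro x _
    simp
  · intro j hj
    rw [mem_range] at hj
    exact ZMod.val_natCast_of_lt hj
  · intro x _
    simp

theorem poly_sum [Fact p.Prime] (f : (ZMod p)[X]) (hf : f.natDegree < p - 1) :
    ∑ n ∈ range p, f.eval (n : ZMod p) = 0 := by
  rw [sum_range_zmod (fun x => f.eval x)]
  simp_rw [eval_eq_sum_range]
  rw [sum_comm]
  apply sum_eq_zero
  intro i hi
  rw [mem_range] at hi
  rw [← mul_sum]
  have := FiniteField.sum_pow_lt_card_sub_one (ZMod p) i (by rw [ZMod.card]; omega)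
  rw [this, mul_zero]

/-- `d(x) = x (x-1) ... (x-T+1)`. -/
def d (p T : ℕ) (x : ZMod p) : ZMod p := ∏ l ∈ range T, (x - (l : ZMod p))

theorem d_choose (T n : ℕ) : d p T (n : ZMod p) = (T.factorial : ZMod p) * (n.choose T : ZMod p) := by
  unfold d
  rw [← descPochhammer_eval_eq_prod_range, descPochhammer_eval_eq_descFactorial,
    Nat.descFactorial_eq_factorial_mul_choose]
  push_cast
  rfl

theorem d_poly (T : ℕ) (x : ZMod p) : d p T x = (descPochhammer (ZMod p) T).eval x := by
  unfold d
  rw [descPochhammer_eval_eq_prod_range]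

theorem d_reflect (T : ℕ) (x : ZMod p) : d p T (-1 - x) = (-1) ^ T * d p T (x + T) := by
  unfold d
  rw [← prod_range_reflect (fun l : ℕ => (x + (T : ZMod p) - (l : ZMod p)))]
  have : ((-1 : ZMod p)) ^ T = ∏ _l ∈ range T, (-1 : ZMod p) := by
    rw [prod_const, card_range]
  rw [this, ← prod_mul_distrib]
  apply prod_congr rfl
  intro l hl
  rw [mem_range] at hl
  have e : ((T - 1 - l : ℕ) : ZMod p) = (T : ZMod p) - 1 - l := by
    rw [Nat.cast_sub (by omega), Nat.cast_sub (by omega)]
    simp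
  rw [e]
  ring

theorem sum_d [Fact p.Prime] (T m : ℕ) (h : m * T < p - 1) :
    ∑ n ∈ range p, d p T (n : ZMod p) ^ m = 0 := by
  have hd : ((descPochhammer (ZMod p) T) ^ m).natDegree < p - 1 := by
    refine lt_of_le_of_lt natDegree_pow_le ?_
    rw [descPochhammer_natDegree]
    exact h
  have := poly_sum _ hd
  simp only [eval_pow, ← d_poly] at this
  exact this

theorem d_zero {T n : ℕ} (h : n < T) : d p T (n : ZMod p) = 0 := by
  unfold d
  exact prod_eq_zero (mem_range.2 h) (sub_self _)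

/-- `∑_{j=1}^n 1/j²` in `ZMod p`. -/
def H2 (p n : ℕ) : ZMod p := ∑ j ∈ range n, ((j + 1 : ℕ) : ZMod p)⁻¹ ^ 2

theorem H2_reflect (hp : p.Prime) (n : ℕ) (hn : n < p) : H2 p (p - 1 - n) = H2 p (p - 1) - H2 p n := by
  have : Fact p.Prime := ⟨hp⟩
  rw [eq_sub_iff_add_eq]
  have e : p - 1 = (p - 1 - n) + n := by omega
  have h1 : H2 p (p - 1) = H2 p (p - 1 - n) + ∑ x ∈ range n, ((p - 1 - n + x + 1 : ℕ) : ZMod p)⁻¹ ^ 2 := by
    conv_lhs => rw [e]
    unfold H2
    rw [sum_range_add]
  rw [h1]
  congr 1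
  unfold H2
  rw [← sum_range_reflect]
  apply sum_congr rfl
  intro x hx
  rw [mem_range] at hx
  have e2 : ((p - 1 - n + x + 1 : ℕ) : ZMod p) = -((n - 1 - x + 1 : ℕ) : ZMod p) := by
    rw [eq_neg_iff_add_eq_zero, ← Nat.cast_add, ZMod.natCast_eq_zero_iff]
    have : p - 1 - n + x + 1 + (n - 1 - x + 1) = p := by omega
    rw [this]
  rw [e2, inv_neg]
  ring

/-- The polynomial `(x-l)^{m-2} ∏_{i ≠ l} (x-i)^m`. -/
noncomputable def E (p T m l : ℕ) : (ZMod p)[X] :=
  (X - C (l : ZMod p)) ^ (m - 2) * (∏ i ∈ (range T).erase l, (X - C (i : ZMod p))) ^ m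

theorem E_deg [Fact p.Prime] {T m l : ℕ} (hm : 2 < m) (hl : l < T) (h : m * T < p - 1) :
    (E p T m l).natDegree < p - 1 := by
  unfold E
  refine lt_of_le_of_lt natDegree_mul_le ?_
  have h1 : ((X - C (l : ZMod p)) ^ (m - 2)).natDegree ≤ m - 2 := by
    refine natDegree_pow_le.trans ?_
    rw [natDegree_X_sub_C, mul_one]
  have h2 : ((∏ i ∈ (range T).erase l, (X - C (i : ZMod p))) ^ m).natDegree ≤ m * (T - 1) := by
    refine natDegree_pow_le.trans ?_
    apply Nat.mul_le_mul_left
    refine (natDegree_prod_le _ _).trans ?_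
    have h4 : ∀ i ∈ (range T).erase l, (X - C (i : ZMod p)).natDegree = 1 :=
      fun i _ => natDegree_X_sub_C _
    rw [sum_congr rfl h4, sum_const, card_erase_of_mem (mem_range.2 hl), card_range]
    simp
  have h3 : m * (T - 1) + m = m * T := by
    obtain ⟨t, rfl⟩ : ∃ t, T = t + 1 := ⟨T - 1, by omega⟩
    simp
    ring
  omega

theorem E_eval [Fact p.Prime] {T m l : ℕ} (hm : 2 < m) (hl : l < T) (x : ZMod p)
    (hx : x - (l : ZMod p) ≠ 0) :
    (E p T m l).eval x = d p T x ^ m * ((x - (l : ZMod p))⁻¹) ^ 2 := by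
  unfold E d
  rw [← mul_prod_erase (range T) _ (mem_range.2 hl)]
  simp only [eval_mul, eval_pow, eval_sub, eval_X, eval_C, eval_prod]
  obtain ⟨k, rfl⟩ : ∃ k, m = k + 2 := ⟨m - 2, by omega⟩
  rw [Nat.add_sub_cancel, mul_pow, pow_add (x - (l : ZMod p)) k 2]
  have : (x - (l : ZMod p)) * (x - (l : ZMod p))⁻¹ = 1 := mul_inv_cancel₀ hx
  generalize (x - (l : ZMod p))⁻¹ = u at *
  generalize (x - (l : ZMod p)) = y at *
  linear_combination (-(y ^ k * (∏ x_1 ∈ (range T).erase l, (x - (x_1 : ZMod p))) ^ (k + 2)) *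
    (y * u + 1)) * this

theorem E_small [Fact p.Prime] {T m l n : ℕ} (hm : 2 < m) (hn : n < T) :
    (E p T m l).eval (n : ZMod p) = 0 := by
  unfold E
  simp only [eval_mul, eval_pow, eval_sub, eval_X, eval_C, eval_prod]
  by_cases h : n = l
  · subst h
    rw [sub_self, zero_pow (by omega), zero_mul]
  · have : (∏ i ∈ (range T).erase l, ((n : ZMod p) - (i : ZMod p))) = 0 :=
      prod_eq_zero (mem_erase.2 ⟨h, mem_range.2 hn⟩) (sub_self _)
    rw [this, zero_pow (by omega), mul_zero]

/-- The main vanishing. -/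
theorem W_zero (hp : p.Prime) (h2 : p ≠ 2) (T m : ℕ) (hm : 2 < m) (h : m * T < p - 1)
    (hev : Even (m * T)) : ∑ n ∈ range p, d p T (n : ZMod p) ^ m * H2 p n = 0 := by
  have : Fact p.Prime := ⟨hp⟩
  have hT : T < p := by
    have : T ≤ m * T := Nat.le_mul_of_pos_left T (by omega)
    omega
  set W := ∑ n ∈ range p, d p T (n : ZMod p) ^ m * H2 p n with hW
  -- shifted sum of d
  have hs0 : ∑ n ∈ range p, d p T ((n : ZMod p) + T) ^ m = 0 := by
    rw [sum_range_zmod (fun x : ZMod p => d p T (x + T) ^ m)]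
    rw [Fintype.sum_equiv (Equiv.addRight (T : ZMod p)) (fun x : ZMod p => d p T (x + T) ^ m)
      (fun x => d p T x ^ m) (fun x => rfl)]
    rw [← sum_range_zmod (fun x => d p T x ^ m)]
    exact sum_d T m h
  have e1 : W = -∑ n ∈ range p, d p T ((n : ZMod p) + T) ^ m * H2 p n := by
    rw [hW, ← sum_range_reflect]
    have : ∀ n ∈ range p, d p T (((p - 1 - n : ℕ) : ZMod p)) ^ m * H2 p (p - 1 - n)
        = H2 p (p - 1) * d p T ((n : ZMod p) + T) ^ m - d p T ((n : ZMod p) + T) ^ m * H2 p n := by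
      intro n hn
      rw [mem_range] at hn
      rw [H2_reflect hp n hn]
      have e : ((p - 1 - n : ℕ) : ZMod p) = -1 - (n : ZMod p) := by
        rw [eq_sub_iff_add_eq, eq_neg_iff_add_eq_zero]
        have : p - 1 - n + n + 1 = p := by omega
        have h3 := congrArg (Nat.cast : ℕ → ZMod p) this
        push_cast at h3
        rw [h3]
        simp
      rw [e, d_reflect, mul_pow, ← pow_mul, mul_comm T m, hev.neg_one_pow]
      ring
    rw [sum_congr rfl this, sum_sub_distrib, ← mul_sum, hs0, mul_zero, zero_sub]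
  have e2 : ∑ n ∈ range p, d p T ((n : ZMod p) + T) ^ m * H2 p n
      = ∑ n ∈ range (p - T), d p T ((n : ZMod p) + T) ^ m * H2 p n := by
    symm
    apply Finset.sum_subset
    · intro x hx
      rw [mem_range] at *
      omega
    · intro n hn hn2
      rw [mem_range] at hn
      rw [mem_range, not_lt] at hn2
      have e : ((n : ZMod p) + T) = ((n + T - p : ℕ) : ZMod p) := by
        rw [Nat.cast_sub (by omega)]
        push_cast
        simp
      rw [e, d_zero (by omega), zero_pow (by omega), zero_mul]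
  have e3 : W = ∑ n ∈ range (p - T), d p T ((n : ZMod p) + T) ^ m * H2 p (T + n) := by
    rw [hW]
    have hr : range p = range (T + (p - T)) := by
      congr 1
      omega
    rw [hr, sum_range_add]
    have h0 : ∑ x ∈ range T, d p T (x : ZMod p) ^ m * H2 p x = 0 := by
      apply sum_eq_zero
      intro x hx
      rw [mem_range] at hx
      rw [d_zero hx, zero_pow (by omega), zero_mul]
    rw [h0, zero_add]
    apply sum_congr rfl
    intro n _
    push_cast
    rw [add_comm (n : ZMod p)]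
  have e4 : ∀ n ∈ range (p - T), d p T ((n : ZMod p) + T) ^ m * (H2 p (T + n) - H2 p n)
      = ∑ l ∈ range T, (E p T m l).eval ((T + n : ℕ) : ZMod p) := by
    intro n hn
    rw [mem_range] at hn
    have : H2 p (T + n) - H2 p n = ∑ l ∈ range T, (((T + n : ℕ) : ZMod p) - (l : ZMod p))⁻¹ ^ 2 := by
      rw [sub_eq_iff_eq_add, add_comm T n]
      unfold H2
      rw [sum_range_add, add_comm]
      congr 1
      rw [← sum_range_reflect]
      apply sum_congr rfl
      intro l hl
      rw [mem_range] at hl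
      congr 2
      rw [eq_sub_iff_add_eq, ← Nat.cast_add]
      congr 1
      omega
    rw [this, mul_sum]
    apply sum_congr rfl
    intro l hl
    rw [mem_range] at hl
    rw [E_eval hm hl]
    · push_cast
      rw [add_comm (n : ZMod p)]
    · intro h0
      rw [← Nat.cast_sub (by omega), ZMod.natCast_eq_zero_iff] at h0
      have := Nat.le_of_dvd (by omega) h0
      omega
  have e5 : 2 * W = 0 := by
    have : 2 * W = W + W := by ring
    rw [this]
    nth_rewrite 1 [e3]
    rw [e1, e2, ← sub_eq_add_neg, ← sum_sub_distrib]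
    have h6 : ∀ n ∈ range (p - T), d p T ((n : ZMod p) + T) ^ m * H2 p (T + n) -
        d p T ((n : ZMod p) + T) ^ m * H2 p n
        = ∑ l ∈ range T, (E p T m l).eval ((T + n : ℕ) : ZMod p) := by
      intro n hn
      rw [← e4 n hn]
      ring
    rw [sum_congr rfl h6, sum_comm]
    apply sum_eq_zero
    intro l hl
    rw [mem_range] at hl
    have h7 := poly_sum (E p T m l) (E_deg hm hl h)
    have h8 : ∑ n ∈ range (T + (p - T)), (E p T m l).eval (n : ZMod p)
        = ∑ n ∈ range (p - T), (E p T m l).eval ((T + n : ℕ) : ZMod p) := by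
      rw [sum_range_add, sum_eq_zero, zero_add]
      intro x hx
      rw [mem_range] at hx
      exact E_small hm hx
    rw [← h8]
    have : T + (p - T) = p := by omega
    rw [this]
    exact h7
  have h2' : (2 : ZMod p) ≠ 0 := by
    intro h0
    have : ((2 : ℕ) : ZMod p) = 0 := by exact_mod_cast h0
    rw [ZMod.natCast_eq_zero_iff] at this
    have := Nat.le_of_dvd (by norm_num) this
    have := hp.two_le
    omega
  exact (mul_eq_zero.1 e5).resolve_left h2'

end Pool.Agent.Helper484_BinPow
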