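import Pool.Agent.helper484_hsum.Odd
import Pool.Agent.helper484_hsum.Rat
import Pool.Agent.helper484_binpow.Field

/-! Sums of `m`-th powers of `binom(r/m, k)` modulo `p³`. -/

set_option autoImplicit false

namespace Pool.Agent.Helper484_BinPow

open Finset Pool.Agent.Helper484_HSum

theorem pow_expand {R : Type*} [CommRing R] (y : R) (hy : y ^ 3 = 0) (m : ℕ) :
    2 * (1 - y) ^ m = 2 - 2 * m * y + ((m : R) ^ 2 - m) * y ^ 2 := by
  induction m with
  | zero => simp
  | succ m ih =>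
    rw [pow_succ]
    push_cast
    linear_combination (1 - y) * ih + (-((m : R) ^ 2 - m)) * hy

section ring

variable {R : Type*} [CommRing R] (P μ : R) (m : ℕ) (x : ℕ → R)

theorem v_P2 (hP : P ^ 3 = 0) (k : ℕ) : P ^ 2 * ∏ i ∈ range k, (1 - P * x i) = P ^ 2 := by
  induction k with
  | zero => simp
  | succ k ih =>
    rw [prod_range_succ]
    linear_combination (1 - P * x k) * ih - x k * hP

theorem pow_P2 (hP : P ^ 3 = 0) (w : R) (k : ℕ) : P ^ 2 * (1 - P * w) ^ k = P ^ 2 := by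
  induction k with
  | zero => simp
  | succ k ih =>
    rw [pow_succ]
    linear_combination (1 - P * w) * ih - w * hP

theorem u_eq (hP : P ^ 3 = 0) (hμ : (m : R) * μ = 1) (k : ℕ) :
    2 * (∏ i ∈ range k, (1 - P * μ * x i)) ^ m
      = 2 * ∏ i ∈ range k, (1 - P * x i) + P ^ 2 * (1 - μ) * ∑ i ∈ range k, x i ^ 2 := by
  induction k with
  | zero => simp
  | succ k ih =>
    have h1 := v_P2 P x hP k
    have h2 := pow_expand (P * μ * x k) (by
      have : (P * μ * x k) ^ 3 = P ^ 3 * (μ * x k) ^ 3 := by ring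
      rw [this, hP, zero_mul]) m
    have h3 := pow_P2 P hP (μ * x k) m
    rw [← mul_assoc P μ (x k)] at h3
    rw [prod_range_succ, prod_range_succ, sum_range_succ, mul_pow]
    generalize (∏ i ∈ range k, (1 - P * μ * x i)) ^ m = U at *
    generalize ∏ i ∈ range k, (1 - P * x i) = V at *
    generalize ∑ i ∈ range k, x i ^ 2 = S at *
    generalize (1 - P * μ * x k) ^ m = Z at *
    generalize x k = y at *
    generalize (m : R) = M at *
    linear_combination Z * ih + V * h2 + (1 - μ) * S * h3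
      + (-2 * V * P * y + P ^ 2 * y ^ 2 * V * (M * μ + 1 - μ)) * hμ + y ^ 2 * (1 - μ) * h1

end ring

variable {p : ℕ}

theorem v_choose (hp : p.Prime) (T k : ℕ) (hk : T + k < p) :
    (∏ i ∈ range k, (1 - (p : ZMod (p ^ 3)) * ((T + 1 + i : ℕ) : ZMod (p ^ 3))⁻¹)) *
      ((-1) ^ T * (((p - 1).choose T : ℕ) : ZMod (p ^ 3)))
    = (-1) ^ (T + k) * (((p - 1).choose (T + k) : ℕ) : ZMod (p ^ 3)) := by
  induction k with
  | zero => simp
  | succ k ih =>
    have ih := ih (by omega)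
    have h := choose_pred hp 3 (j := T + (k + 1)) (by omega) hk
    rw [prod_range_succ, h]
    have e : T + (k + 1) - 1 = T + k := by omega
    have e2 : T + 1 + k = T + (k + 1) := by ring
    rw [e, e2]
    have e3 : (-1 : ZMod (p ^ 3)) ^ (T + (k + 1)) = -(-1) ^ (T + k) := by
      rw [← add_assoc, pow_succ]
      ring
    rw [e3]
    linear_combination (1 - (p : ZMod (p ^ 3)) * ((T + (k + 1) : ℕ) : ZMod (p ^ 3))⁻¹) * ih

theorem sum_v (hp : p.Prime) (T m : ℕ) (hm : 2 < m) (h : m * T < p - 1) :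
    ∑ k ∈ range (p - T), (((T + k).choose T : ℕ) : ZMod (p ^ 3)) ^ m *
      ∏ i ∈ range k, (1 - (p : ZMod (p ^ 3)) * ((T + 1 + i : ℕ) : ZMod (p ^ 3))⁻¹) = 0 := by
  have hT : T < p := by
    have : T ≤ m * T := Nat.le_mul_of_pos_left T (by omega)
    omega
  have hunit : IsUnit ((-1) ^ T * (((p - 1).choose T : ℕ) : ZMod (p ^ 3))) := by
    apply IsUnit.mul
    · exact (isUnit_one.neg).pow T
    · rw [ZMod.isUnit_iff_coprime]
      apply Nat.Coprime.pow_right
      rw [Nat.coprime_comm, hp.coprime_iff_not_dvd]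
      intro hd
      have h1 := Nat.choose_mul_factorial_mul_factorial (show T ≤ p - 1 by omega)
      have h2 : p ∣ (p - 1).factorial := by
        rw [← h1]
        exact Dvd.dvd.mul_right (Dvd.dvd.mul_right hd _) _
      have := (hp.dvd_factorial).1 h2
      omega
  apply hunit.mul_right_eq_zero.1
  rw [mul_comm, sum_mul]
  have h1 := alt_sum (p - 1) T m h
  have h2 := congrArg (Int.cast : ℤ → ZMod (p ^ 3)) h1
  push_cast at h2
  have hr : range (p - 1 + 1) = range (T + (p - T)) := by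
    congr 1
    omega
  rw [hr, sum_range_add] at h2
  have h0 : ∑ x ∈ range T, (-1 : ZMod (p ^ 3)) ^ x * ((p - 1).choose x : ZMod (p ^ 3)) *
      (x.choose T : ZMod (p ^ 3)) ^ m = 0 := by
    apply sum_eq_zero
    intro x hx
    rw [mem_range] at hx
    rw [Nat.choose_eq_zero_of_lt hx]
    rw [Nat.cast_zero, zero_pow (by omega), mul_zero]
  rw [h0, zero_add] at h2
  rw [← h2]
  apply sum_congr rfl
  intro k hk
  rw [mem_range] at hk
  rw [mul_assoc, v_choose hp T k (by omega)]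
  ring

theorem sum_E (hp : p.Prime) (h2 : p ≠ 2) (T m : ℕ) (hm : 2 < m) (h : m * T < p - 1)
    (hev : Even (m * T)) :
    (p : ZMod (p ^ 3)) ^ 2 * ∑ k ∈ range (p - T), (((T + k).choose T : ℕ) : ZMod (p ^ 3)) ^ m *
      ∑ i ∈ range k, (((T + 1 + i : ℕ) : ZMod (p ^ 3))⁻¹) ^ 2 = 0 := by
  have hF : Fact p.Prime := ⟨hp⟩
  have hT : T < p := by
    have : T ≤ m * T := Nat.le_mul_of_pos_left T (by omega)
    omega
  apply mul_eq_zero_of_cast hp 2
  rw [map_sum]
  have h1 : ∀ k ∈ range (p - T), ZMod.castHom (dvd_pow_self p (Nat.succ_ne_zero 2)) (ZMod p)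
      ((((T + k).choose T : ℕ) : ZMod (p ^ 3)) ^ m *
        ∑ i ∈ range k, (((T + 1 + i : ℕ) : ZMod (p ^ 3))⁻¹) ^ 2)
      = (((T + k).choose T : ℕ) : ZMod p) ^ m * (H2 p (T + k) - H2 p T) := by
    intro k hk
    rw [mem_range] at hk
    rw [map_mul, map_pow, map_natCast, map_sum]
    congr 1
    unfold H2
    rw [sum_range_add, add_sub_cancel_left]
    apply sum_congr rfl
    intro i hi
    rw [mem_range] at hi
    rw [map_pow]
    congr 1
    have e : T + i + 1 = T + 1 + i := by ring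
    rw [e]
    have hu := unit_mul hp 3 (j := T + 1 + i) (by omega) (by omega)
    have h2 := congrArg (ZMod.castHom (dvd_pow_self p (Nat.succ_ne_zero 2)) (ZMod p)) hu
    rw [map_mul, map_natCast, map_one] at h2
    exact eq_inv_of_mul_eq_one_right h2
  rw [sum_congr rfl h1]
  have hW := W_zero hp h2 T m hm h hev
  have hD := sum_d (p := p) T m h
  have hr : range p = range (T + (p - T)) := by
    congr 1
    omega
  rw [hr, sum_range_add] at hW hD
  have hfac : ((T.factorial : ℕ) : ZMod p) ^ m ≠ 0 := by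
    apply pow_ne_zero
    rw [Ne, ZMod.natCast_eq_zero_iff, hp.dvd_factorial]
    omega
  have z1 : ∑ x ∈ range T, d p T (x : ZMod p) ^ m * H2 p x = 0 := by
    apply sum_eq_zero
    intro x hx
    rw [mem_range] at hx
    rw [d_zero hx, zero_pow (by omega), zero_mul]
  have z2 : ∑ x ∈ range T, d p T (x : ZMod p) ^ m = 0 := by
    apply sum_eq_zero
    intro x hx
    rw [mem_range] at hx
    rw [d_zero hx, zero_pow (by omega)]
  rw [z1, zero_add] at hW
  rw [z2, zero_add] at hD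
  apply (mul_eq_zero.1 _).resolve_left hfac
  rw [mul_sum]
  have h3 : ∀ k ∈ range (p - T), ((T.factorial : ℕ) : ZMod p) ^ m *
      ((((T + k).choose T : ℕ) : ZMod p) ^ m * (H2 p (T + k) - H2 p T))
      = d p T ((T + k : ℕ) : ZMod p) ^ m * H2 p (T + k) -
        H2 p T * d p T ((T + k : ℕ) : ZMod p) ^ m := by
    intro k _
    rw [d_choose, mul_pow]
    ring
  rw [sum_congr rfl h3, sum_sub_distrib, ← mul_sum, hW, hD, mul_zero, sub_zero]

/-- The sum of the first `p - T` terms. -/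
theorem sum_u (hp : p.Prime) (h2 : p ≠ 2) (T m : ℕ) (hm : 2 < m) (h : m * T < p - 1)
    (hev : Even (m * T)) (μ : ZMod (p ^ 3)) (hμ : (m : ZMod (p ^ 3)) * μ = 1) :
    ∑ k ∈ range (p - T), (((T + k).choose T : ℕ) : ZMod (p ^ 3)) ^ m *
      (∏ i ∈ range k, (1 - (p : ZMod (p ^ 3)) * μ * ((T + 1 + i : ℕ) : ZMod (p ^ 3))⁻¹)) ^ m
      = 0 := by
  have hP : (p : ZMod (p ^ 3)) ^ 3 = 0 := pow_self 3
  apply (isUnit_two hp h2 3).mul_right_eq_zero.1
  have h1 := sum_v hp T m hm h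
  have h3 := sum_E hp h2 T m hm h hev
  rw [mul_sum]
  have h4 : ∀ k ∈ range (p - T), 2 * ((((T + k).choose T : ℕ) : ZMod (p ^ 3)) ^ m *
      (∏ i ∈ range k, (1 - (p : ZMod (p ^ 3)) * μ * ((T + 1 + i : ℕ) : ZMod (p ^ 3))⁻¹)) ^ m)
      = 2 * ((((T + k).choose T : ℕ) : ZMod (p ^ 3)) ^ m *
        ∏ i ∈ range k, (1 - (p : ZMod (p ^ 3)) * ((T + 1 + i : ℕ) : ZMod (p ^ 3))⁻¹))
        + (1 - μ) * ((p : ZMod (p ^ 3)) ^ 2 * ((((T + k).choose T : ℕ) : ZMod (p ^ 3)) ^ m *
        ∑ i ∈ range k, (((T + 1 + i : ℕ) : ZMod (p ^ 3))⁻¹) ^ 2)) := by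
    intro k _
    have := u_eq (p : ZMod (p ^ 3)) μ m (fun i => ((T + 1 + i : ℕ) : ZMod (p ^ 3))⁻¹) hP hμ k
    linear_combination (((T + k).choose T : ℕ) : ZMod (p ^ 3)) ^ m * this
  rw [sum_congr rfl h4, sum_add_distrib, ← mul_sum, ← mul_sum, ← mul_sum, h1, h3]
  ring

/-- `A_k = (∏_{i<k} (m (T+1+i) - p))^m`. -/
def A (p T m k : ℕ) : ℤ := (∏ i ∈ range k, ((m : ℤ) * ((T + 1 + i : ℕ) : ℤ) - p)) ^ m

/-- `B_k = (m^k k!)^m`. -/
def B (m k : ℕ) : ℤ := ((m : ℤ) ^ k * (k.factorial : ℤ)) ^ m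

theorem sum_AB (hp : p.Prime) (h2 : p ≠ 2) (T m : ℕ) (hm : 2 < m) (h : m * T < p - 1)
    (hev : Even (m * T)) (hpm : ¬ p ∣ m) :
    ∃ a b : ℤ, ¬ (p : ℤ) ∣ b ∧
      ∑ k ∈ range p, (A p T m k : ℚ) / (B m k : ℚ) = (p : ℚ) ^ 3 * a / b := by
  have hpi : Prime (p : ℤ) := Nat.prime_iff_prime_int.1 hp
  have hB : ∀ k ∈ range p, ¬ (p : ℤ) ∣ B m k := by
    intro k hk hd
    rw [mem_range] at hk
    unfold B at hd
    have h1 := hpi.dvd_of_dvd_pow hd
    rcases hpi.dvd_mul.1 h1 with h3 | h3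
    · have h4 := hpi.dvd_of_dvd_pow h3
      exact hpm (by exact_mod_cast h4)
    · have h4 : p ∣ k.factorial := by exact_mod_cast h3
      have := (hp.dvd_factorial).1 h4
      omega
  apply rat_sum hp 3 (range p) (fun k => A p T m k) (fun k => B m k) hB
  have hT : T < p := by
    have : T ≤ m * T := Nat.le_mul_of_pos_left T (by omega)
    omega
  have hP : (p : ZMod (p ^ 3)) ^ 3 = 0 := pow_self 3
  obtain ⟨μ, hμ⟩ : ∃ μ : ZMod (p ^ 3), (m : ZMod (p ^ 3)) * μ = 1 := by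
    refine ⟨(m : ZMod (p ^ 3))⁻¹, ?_⟩
    apply ZMod.coe_mul_inv_eq_one
    apply Nat.Coprime.pow_right
    rw [Nat.coprime_comm]
    exact (Nat.Prime.coprime_iff_not_dvd hp).2 hpm
  have hbig : ∀ k ∈ range p, k ∉ range (p - T) →
      ((A p T m k : ℤ) : ZMod (p ^ 3)) * ((B m k : ℤ) : ZMod (p ^ 3))⁻¹ = 0 := by
    intro k hk hk2
    rw [mem_range] at hk
    rw [mem_range, not_lt] at hk2
    have hd : (p : ℤ) ∣ ∏ i ∈ range k, ((m : ℤ) * ((T + 1 + i : ℕ) : ℤ) - p) := by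
      apply Dvd.dvd.trans _ (Finset.dvd_prod_of_mem _ (mem_range.2 (show p - 1 - T < k by omega)))
      have e : T + 1 + (p - 1 - T) = p := by omega
      rw [e]
      exact dvd_sub (Dvd.dvd.mul_left (dvd_refl _) _) (dvd_refl _)
    have hd3 : (p : ℤ) ^ 3 ∣ A p T m k := by
      unfold A
      exact (pow_dvd_pow_of_dvd hd 3).trans (pow_dvd_pow _ (by omega))
    have : ((A p T m k : ℤ) : ZMod (p ^ 3)) = 0 := by
      rw [ZMod.intCast_zmod_eq_zero_iff_dvd]
      exact_mod_cast hd3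
    rw [this, zero_mul]
  rw [← Finset.sum_subset (s₁ := range (p - T)) (by
    intro x hx
    rw [mem_range] at *
    omega) hbig]
  rw [← sum_u hp h2 T m hm h hev μ hμ]
  apply sum_congr rfl
  intro k hk
  rw [mem_range] at hk
  have hu := int_unit_mul hp 3 (B m k) (hB k (mem_range.2 (by omega)))
  have key : ∏ i ∈ range k, ((m : ZMod (p ^ 3)) * ((T + 1 + i : ℕ) : ZMod (p ^ 3)) - p)
      = (((T + k).choose T : ℕ) : ZMod (p ^ 3)) *
        (∏ i ∈ range k, (1 - (p : ZMod (p ^ 3)) * μ * ((T + 1 + i : ℕ) : ZMod (p ^ 3))⁻¹)) *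
        ((m : ZMod (p ^ 3)) ^ k * (k.factorial : ZMod (p ^ 3))) := by
    have h5 : (((T + k).choose T : ℕ) : ZMod (p ^ 3)) * (k.factorial : ZMod (p ^ 3))
        = ∏ i ∈ range k, ((T + 1 + i : ℕ) : ZMod (p ^ 3)) := by
      have h6 : (T + k).choose T * k.factorial = ∏ i ∈ range k, (T + 1 + i) := by
        clear hk hu hbig
        induction k with
        | zero => simp
        | succ k ih =>
          rw [prod_range_succ, ← ih, Nat.factorial_succ]
          have h7 := Nat.choose_mul_succ_eq (T + k) T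
          have e : T + k + 1 - T = k + 1 := by omega
          rw [e] at h7
          calc (T + (k + 1)).choose T * ((k + 1) * k.factorial)
              = ((T + k + 1).choose T * (k + 1)) * k.factorial := by rw [add_assoc]; ring
            _ = _ := by rw [← h7]; ring
      have := congrArg (Nat.cast : ℕ → ZMod (p ^ 3)) h6
      rw [Nat.cast_mul, Nat.cast_prod] at this
      exact this
    have h8 : (((T + k).choose T : ℕ) : ZMod (p ^ 3)) *
        (∏ i ∈ range k, (1 - (p : ZMod (p ^ 3)) * μ * ((T + 1 + i : ℕ) : ZMod (p ^ 3))⁻¹)) *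
        ((m : ZMod (p ^ 3)) ^ k * (k.factorial : ZMod (p ^ 3)))
        = (m : ZMod (p ^ 3)) ^ k * (((((T + k).choose T : ℕ) : ZMod (p ^ 3)) *
          (k.factorial : ZMod (p ^ 3))) *
        (∏ i ∈ range k, (1 - (p : ZMod (p ^ 3)) * μ * ((T + 1 + i : ℕ) : ZMod (p ^ 3))⁻¹))) := by
      ring
    rw [h8, h5, ← prod_mul_distrib]
    have h9 : (m : ZMod (p ^ 3)) ^ k = ∏ _i ∈ range k, (m : ZMod (p ^ 3)) := by
      rw [prod_const, card_range]
    rw [h9, ← prod_mul_distrib]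
    apply prod_congr rfl
    intro i hi
    rw [mem_range] at hi
    have hv := unit_mul hp 3 (j := T + 1 + i) (by omega) (by omega)
    generalize ((T + 1 + i : ℕ) : ZMod (p ^ 3))⁻¹ = v at *
    generalize ((T + 1 + i : ℕ) : ZMod (p ^ 3)) = J at *
    generalize (m : ZMod (p ^ 3)) = M at *
    generalize (p : ZMod (p ^ 3)) = P at *
    linear_combination P * hμ + P * μ * M * hv
  have hA : ((A p T m k : ℤ) : ZMod (p ^ 3)) = (((T + k).choose T : ℕ) : ZMod (p ^ 3)) ^ m *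
      (∏ i ∈ range k, (1 - (p : ZMod (p ^ 3)) * μ * ((T + 1 + i : ℕ) : ZMod (p ^ 3))⁻¹)) ^ m *
      ((B m k : ℤ) : ZMod (p ^ 3)) := by
    unfold A B
    have h10 : (((∏ i ∈ range k, ((m : ℤ) * ((T + 1 + i : ℕ) : ℤ) - p)) ^ m : ℤ) : ZMod (p ^ 3))
        = (∏ i ∈ range k, ((m : ZMod (p ^ 3)) * ((T + 1 + i : ℕ) : ZMod (p ^ 3)) - p)) ^ m := by
      rw [Int.cast_pow, Int.cast_prod]
      congr 1
      apply prod_congr rfl
      intro i _
      rw [Int.cast_sub, Int.cast_mul, Int.cast_natCast, Int.cast_natCast, Int.cast_natCast]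
    rw [h10, key, mul_pow, mul_pow]
    congr 1
    rw [Int.cast_pow, Int.cast_mul, Int.cast_pow, Int.cast_natCast, Int.cast_natCast]
  rw [hA, mul_assoc, hu, mul_one]

end Pool.Agent.Helper484_BinPow
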